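import Mathlib

set_option autoImplicit false

/-! Possibility frames, Kripke frames and the modal language. -/

namespace Pool.Agent.Q216.PFr

/-- Formulas of the polymodal language with boxes indexed by `I`. -/
inductive Fm (I : Type) : Type
  | var : ℕ → Fm I
  | neg : Fm I → Fm I
  | and : Fm I → Fm I → Fm I
  | box : I → Fm I → Fm I

/-- Truth at a point of a Kripke model. -/
def Sat {I W : Type} (R : I → W → W → Prop) (V : ℕ → W → Prop) : W → Fm I → Prop
  | w, .var n => V n w
  | w, .neg a => ¬ Sat R V w a
  | w, .and a b => Sat R V w a ∧ Sat R V w b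
  | w, .box i a => ∀ v, R i w v → Sat R V v a

/-- Validity of a formula on a Kripke frame. -/
def KValid {I W : Type} (R : I → W → W → Prop) (φ : Fm I) : Prop :=
  ∀ (V : ℕ → W → Prop) (w : W), Sat R V w φ

/-- Regular open sets of a preorder given by its refinement relation (`le x' x`: `x'` refines `x`). -/
def IsRO {S : Type} (le : S → S → Prop) (X : S → Prop) : Prop :=
  ∀ x, X x ↔ ∀ x', le x' x → ∃ x'', le x'' x' ∧ X x''

/-- A full possibility frame on the set `S`. -/
structure FullFrame (I S : Type) where
  le : S → S → Prop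
  refl : ∀ x, le x x
  trans : ∀ x y z, le x y → le y z → le x z
  antisymm : ∀ x y, le x y → le y x → x = y
  R : I → S → S → Prop
  full : ∀ (i : I) (X : S → Prop), IsRO le X → IsRO le (fun x => ∀ y, R i x y → X y)

/-- Forcing at a point of a possibility model. -/
def Force {I S : Type} (F : FullFrame I S) (V : ℕ → S → Prop) : S → Fm I → Prop
  | x, .var n => V n x
  | x, .neg a => ∀ x', F.le x' x → ¬ Force F V x' a
  | x, .and a b => Force F V x a ∧ Force F V x b
  | x, .box i a => ∀ y, F.R i x y → Force F V y a

/-- Validity of a formula on a full possibility frame. -/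
def FValid {I S : Type} (F : FullFrame I S) (φ : Fm I) : Prop :=
  ∀ V : ℕ → S → Prop, (∀ n, IsRO F.le (V n)) → ∀ x, Force F V x φ

/-- Binary relation symbols indexed by `J`. -/
inductive Rel2 (J : Type) : ℕ → Type
  | r : J → Rel2 J 2

/-- The first-order language (with equality) with one binary relation symbol for each `j : J`. -/
def lang (J : Type) : FirstOrder.Language := ⟨fun _ => Empty, Rel2 J⟩

/-- The first-order structure given by a family of binary relations. -/
@[instance_reducible]
def strOf {J W : Type} (ρ : J → W → W → Prop) : (lang J).Structure W where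
  funMap := fun f => Empty.elim f
  RelMap := fun r x => match r, x with
    | .r j, x => ρ j (x 0) (x 1)

/-- A first-order sentence is true of a family of binary relations on `W`. -/
def Holds {J W : Type} (ρ : J → W → W → Prop) (α : (lang J).Sentence) : Prop :=
  @FirstOrder.Language.Sentence.Realize (lang J) W (strOf ρ) α

/-- The relations of a possibility frame: refinement (index `none`) and the `R i`. -/
def frameRel {I S : Type} (F : FullFrame I S) : Option I → S → S → Prop
  | none => F.le
  | some i => F.R i

/-- `φ` has a first-order correspondent over Kripke frames. -/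
def KripkeFO {I : Type} (φ : Fm I) : Prop :=
  ∃ α : (lang I).Sentence, ∀ (W : Type) [Nonempty W] (R : I → W → W → Prop),
    KValid R φ ↔ Holds R α

/-- `φ` has a first-order correspondent over full possibility frames. -/
def PossFO {I : Type} (φ : Fm I) : Prop :=
  ∃ α : (lang (Option I)).Sentence, ∀ (S : Type) [Nonempty S] (F : FullFrame I S),
    FValid F φ ↔ Holds (frameRel F) α

namespace Fm

variable {I : Type}

/-- falsum -/
def bot : Fm I := and (var 0) (neg (var 0))
/-- verum -/
def top : Fm I := neg bot
/-- implication -/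
def imp (a b : Fm I) : Fm I := neg (and a (neg b))
/-- diamond -/
def dia (i : I) (a : Fm I) : Fm I := neg (box i (neg a))

end Fm

section General

variable {I S : Type} (F : FullFrame I S) (V : ℕ → S → Prop)

theorem IsRO.down {le : S → S → Prop} {X : S → Prop} (htr : ∀ x y z, le x y → le y z → le x z)
    (h : IsRO le X) {x x' : S} (hx : X x) (hle : le x' x) : X x' := by
  rw [h x']
  intro y hy
  exact (h x).1 hx y (htr _ _ _ hy hle)

theorem force_ro (hV : ∀ n, IsRO F.le (V n)) (φ : Fm I) :
    IsRO F.le (fun x => Force F V x φ) := by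
  induction φ with
  | var n => exact hV n
  | neg a ih =>
    intro x
    constructor
    · intro h x' hx'
      exact ⟨x', F.refl _, fun y hy => h y (F.trans _ _ _ hy hx')⟩
    · intro h x' hx' ha
      obtain ⟨x'', h1, h2⟩ := h x' hx'
      exact h2 x'' (F.refl _) (IsRO.down F.trans ih ha h1)
  | and a b iha ihb =>
    intro x
    constructor
    · intro h x' hx'
      exact ⟨x', F.refl _, IsRO.down F.trans iha h.1 hx', IsRO.down F.trans ihb h.2 hx'⟩
    · intro h
      constructor
      · refine (iha x).2 fun x' hx' => ?_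
        obtain ⟨x'', h1, h2⟩ := h x' hx'
        exact ⟨x'', h1, h2.1⟩
      · refine (ihb x).2 fun x' hx' => ?_
        obtain ⟨x'', h1, h2⟩ := h x' hx'
        exact ⟨x'', h1, h2.2⟩
  | box i a ih => exact F.full i _ ih

theorem force_down (hV : ∀ n, IsRO F.le (V n)) (φ : Fm I) {x x' : S}
    (h : Force F V x φ) (hle : F.le x' x) : Force F V x' φ :=
  IsRO.down F.trans (force_ro F V hV φ) h hle

theorem force_bot (x : S) : ¬ Force F V x (Fm.bot : Fm I) := by
  intro h
  exact h.2 x (F.refl _) h.1

theorem force_top (x : S) : Force F V x (Fm.top : Fm I) := fun y _ => force_bot F V y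

theorem force_imp (hV : ∀ n, IsRO F.le (V n)) (a b : Fm I) (x : S) :
    Force F V x (Fm.imp a b) ↔ ∀ x', F.le x' x → Force F V x' a → Force F V x' b := by
  constructor
  · intro h x' hx' ha
    rw [show Force F V x' b ↔ _ from force_ro F V hV b x']
    intro y hy
    by_contra hcon
    push Not at hcon
    exact h y (F.trans _ _ _ hy hx') ⟨force_down F V hV a ha hy, hcon⟩
  · rintro h x' hx' ⟨h1, h2⟩
    exact h2 x' (F.refl _) (h x' hx' h1)

theorem force_dia (i : I) (a : Fm I) (x : S) :
    Force F V x (Fm.dia i a) ↔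
      ∀ x', F.le x' x → ∃ y, F.R i x' y ∧ ∃ y', F.le y' y ∧ Force F V y' a := by
  constructor
  · intro h x' hx'
    have := h x' hx'
    by_contra hcon
    push Not at hcon
    exact this fun y hy y' hy' => hcon y hy y' hy'
  · intro h x' hx' hb
    obtain ⟨y, hy, y', hy', ha⟩ := h x' hx'
    exact hb y hy y' hy' ha

/-- sufficient (first-order) conditions for being a full frame -/
theorem full_of {le : S → S → Prop} {R : S → S → Prop}
    (h1 : ∀ x x' z, le x' x → R x' z → R x z)
    (h2 : ∀ x z z', R x z → le z' z → ∃ x', le x' x ∧ ∀ x'', le x'' x' → ∃ z'', le z'' z' ∧ R x'' z'')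
    (hr : ∀ x, le x x) (X : S → Prop) (hX : IsRO le X) :
    IsRO le (fun x => ∀ y, R x y → X y) := by
  intro x
  constructor
  · intro h x' hx'
    exact ⟨x', hr _, fun y hy => h y (h1 _ _ _ hx' hy)⟩
  · intro h z hz
    rw [hX z]
    intro z' hz'
    obtain ⟨x', hx', hx2⟩ := h2 x z z' hz hz'
    obtain ⟨x'', hx'', hb⟩ := h x' hx'
    obtain ⟨z'', hz'', hR⟩ := hx2 x'' hx''
    exact ⟨z'', hz'', hb _ hR⟩

end General

/-! The formula. -/

namespace Fm

variable {I : Type} (i : I)

/-- a point with no `□⊥` successor, but with a successor -/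
def xi : Fm I := and (neg (dia i (box i bot))) (dia i top)
/-- `◇⊤ ∧ □□⊥` -/
def del : Fm I := and (dia i top) (box i (box i bot))
/-- `◇□⊥ ∧ ◇◇⊤` -/
def om : Fm I := and (dia i (box i bot)) (dia i (dia i top))
/-- `□(ξ → p)` -/
def bxp : Fm I := box i (imp (xi i) (var 0))
/-- `ω ∧ ◇δ ∧ □(ξ → p) ∧ ¬◇(ω ∧ □(ξ → p))` -/
def th : Fm I := and (and (om i) (dia i (del i))) (and (bxp i) (neg (dia i (and (om i) (bxp i)))))
/-- `◇θ` -/
def tt : Fm I := dia i (th i)
/-- `ξ ∧ p → ◇(ξ ∧ p ∧ t) ∧ ◇(ξ ∧ p ∧ ¬t)` -/
def split : Fm I :=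
  imp (and (xi i) (var 0))
    (and (dia i (and (and (xi i) (var 0)) (tt i)))
      (dia i (and (and (xi i) (var 0)) (neg (tt i)))))
/-- a Löb axiom relativized to `ω` -/
def lam : Fm I :=
  imp (box i (imp (om i) (imp (box i (imp (om i) (var 1))) (var 1)))) (box i (imp (om i) (var 1)))
/-- the formula -/
def phi : Fm I := and (split i) (imp (xi i) (box i (imp (om i) (lam i))))

end Fm

end Pool.Agent.Q216.PFr
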