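import Pool.Agent.Q216.PFr.Basic

set_option autoImplicit false

namespace Pool.Agent.Q216.PFr

/-- The points of the frame. -/
inductive P0 : Type
  | d0 : P0
  | d1 : P0
  | X : List Bool → P0
  | W : (s : List Bool) → (n : ℕ) → n < s.length → P0

open P0

/-- refinement -/
def le0 : P0 → P0 → Prop
  | .d0, .d0 => True
  | .d1, .d1 => True
  | .X s', .X s => s <+: s'
  | .W s' n' _, .W s n _ => s <+: s' ∧ n' = n
  | _, _ => False

/-- accessibility -/
def R0 : P0 → P0 → Prop
  | .d1, .d0 => True
  | .X _, .X _ => True
  | .X s, .W s' _ _ => s <+: s'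
  | .W _ _ _, .d0 => True
  | .W s n _, .d1 => s[n]? = some true
  | .W s n _, .X u => s.take n <+: u
  | .W s n _, .W s' m _ => m < n ∧ s <+: s'
  | _, _ => False

theorem pre_get {s s' : List Bool} (h : s <+: s') {n : ℕ} (hn : n < s.length) :
    s'[n]? = s[n]? := by
  obtain ⟨t, rfl⟩ := h
  exact List.getElem?_append_left hn

theorem pre_take {s s' : List Bool} (h : s <+: s') {n : ℕ} (hn : n ≤ s.length) :
    s'.take n = s.take n := by
  obtain ⟨t, rfl⟩ := h
  exact List.take_append_of_le_length hn

theorem le0_refl (x : P0) : le0 x x := by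
  cases x <;> simp [le0]

theorem le0_trans (x y z : P0) (h1 : le0 x y) (h2 : le0 y z) : le0 x z := by
  cases x <;> cases y <;> cases z <;> first | trivial | skip
  · exact List.IsPrefix.trans h2 h1
  · exact ⟨h2.1.trans h1.1, h1.2.trans h2.2⟩

theorem le0_antisymm (x y : P0) (h1 : le0 x y) (h2 : le0 y x) : x = y := by
  cases x <;> cases y <;> simp_all [le0]
  · exact (h2.eq_of_length (le_antisymm h2.length_le h1.length_le))
  · exact (h2.eq_of_length (le_antisymm h2.length_le h1.1.length_le))

theorem C1_0 (x x' z : P0) (h : le0 x' x) (h' : R0 x' z) : R0 x z := by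
  cases x <;> cases x' <;> cases z <;> first | trivial | skip
  · exact List.IsPrefix.trans h h'
  · rename_i s n hn s' n' hn'
    obtain ⟨h, rfl⟩ := h
    show s[n']? = some true
    rw [← pre_get h hn]; exact h'
  · rename_i s n hn s' n' hn' u
    obtain ⟨h, rfl⟩ := h
    show s.take n' <+: u
    rw [← pre_take h hn.le]; exact h'
  · rename_i s n hn s' n' hn' u m hm
    obtain ⟨h, rfl⟩ := h
    exact ⟨h'.1, h.trans h'.2⟩

theorem C2_0 (x z z' : P0) (h : R0 x z) (h' : le0 z' z) :
    ∃ x', le0 x' x ∧ ∀ x'', le0 x'' x' → ∃ z'', le0 z'' z' ∧ R0 x'' z'' := by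
  cases x with
  | d0 => exact absurd h (by cases z <;> simp [R0])
  | d1 =>
    refine ⟨.d1, le0_refl _, fun x'' hx'' => ⟨z', le0_refl _, ?_⟩⟩
    cases z <;> cases z' <;> cases x'' <;> simp_all [le0, R0]
  | X s =>
    cases z with
    | d0 => simp [R0] at h
    | d1 => simp [R0] at h
    | X u =>
      refine ⟨.X s, le0_refl _, fun x'' hx'' => ⟨z', le0_refl _, ?_⟩⟩
      cases z' <;> cases x'' <;> simp_all [le0, R0]
    | W s1 n hn =>
      cases z' with
      | d0 => simp [le0] at h'
      | d1 => simp [le0] at h'
      | X u => simp [le0] at h'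
      | W s1' n' hn' =>
        refine ⟨.X s1', ?_, fun x'' hx'' => ?_⟩
        · show s <+: s1'
          exact List.IsPrefix.trans h h'.1
        · cases x'' with
          | d0 => simp [le0] at hx''
          | d1 => simp [le0] at hx''
          | W _ _ _ => simp [le0] at hx''
          | X s'' =>
            have hp : s1' <+: s'' := hx''
            exact ⟨.W s'' n' (lt_of_lt_of_le hn' hp.length_le), ⟨hp, rfl⟩, List.prefix_rfl⟩
  | W s n hn =>
    have key : ∀ x'', le0 x'' (.W s n hn) → ∃ s'' h'', x'' = .W s'' n h'' ∧ s <+: s'' := by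
      intro x'' hx''
      cases x'' with
      | d0 => simp [le0] at hx''
      | d1 => simp [le0] at hx''
      | X _ => simp [le0] at hx''
      | W s'' n'' h'' =>
        obtain ⟨h1, rfl⟩ := hx''
        exact ⟨s'', h'', rfl, h1⟩
    cases z with
    | d0 =>
      refine ⟨.W s n hn, le0_refl _, fun x'' hx'' => ⟨z', le0_refl _, ?_⟩⟩
      obtain ⟨s'', h'', rfl, hp⟩ := key x'' hx''
      cases z' <;> simp_all [le0, R0]
    | d1 =>
      refine ⟨.W s n hn, le0_refl _, fun x'' hx'' => ⟨z', le0_refl _, ?_⟩⟩
      obtain ⟨s'', h'', rfl, hp⟩ := key x'' hx''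
      cases z' with
      | d1 =>
        show s''[n]? = some true
        rw [pre_get hp hn]; exact h
      | _ => simp [le0] at h'
    | X u =>
      refine ⟨.W s n hn, le0_refl _, fun x'' hx'' => ⟨z', le0_refl _, ?_⟩⟩
      obtain ⟨s'', h'', rfl, hp⟩ := key x'' hx''
      cases z' with
      | d0 => simp [le0] at h'
      | d1 => simp [le0] at h'
      | W _ _ _ => simp [le0] at h'
      | X u' =>
        show s''.take n <+: u'
        rw [pre_take hp hn.le]
        exact List.IsPrefix.trans h h'
    | W s1 m hm =>
      cases z' with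
      | d0 => simp [le0] at h'
      | d1 => simp [le0] at h'
      | X u => simp [le0] at h'
      | W s1' m' hm' =>
        obtain ⟨h1, rfl⟩ := h'
        have h2 : s <+: s1' := List.IsPrefix.trans h.2 h1
        refine ⟨.W s1' n (lt_of_lt_of_le hn h2.length_le), ⟨h2, rfl⟩, fun x'' hx'' => ?_⟩
        cases x'' with
        | d0 => simp [le0] at hx''
        | d1 => simp [le0] at hx''
        | X _ => simp [le0] at hx''
        | W s'' n'' h'' =>
          obtain ⟨h3, rfl⟩ := hx''
          exact ⟨.W s'' m' (lt_of_lt_of_le hm' h3.length_le), ⟨h3, rfl⟩, h.1, List.prefix_rfl⟩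

/-- the frame -/
def F0 (I : Type) : FullFrame I P0 where
  le := le0
  refl := le0_refl
  trans := le0_trans
  antisymm := le0_antisymm
  R := fun _ => R0
  full := fun _ X hX => full_of C1_0 C2_0 le0_refl X hX

section Truth

variable {I : Type} (i : I) (V : ℕ → P0 → Prop)

theorem f_bb (x : P0) : Force (F0 I) V x (.box i .bot) ↔ x = .d0 := by
  constructor
  · intro h
    have h' : ∀ y, ¬ R0 x y := fun y hy => force_bot _ V y (h y hy)
    cases x with
    | d0 => rfl
    | d1 => exact absurd trivial (h' .d0)
    | X s => exact absurd trivial (h' (.X []))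
    | W s n hn => exact absurd trivial (h' .d0)
  · rintro rfl y hy
    exact absurd (show R0 .d0 y from hy) (by cases y <;> simp [R0])

theorem f_dt (x : P0) : Force (F0 I) V x (.dia i .top) ↔ x ≠ .d0 := by
  rw [force_dia]
  constructor
  · rintro h rfl
    obtain ⟨y, hy, -⟩ := h .d0 trivial
    exact absurd (show R0 .d0 y from hy) (by cases y <;> simp [R0])
  · intro h x' hx'
    have hx2 : le0 x' x := hx'
    have : ∃ y, R0 x' y := by
      cases x' with
      | d0 => cases x <;> simp_all [le0]
      | d1 => exact ⟨.d0, trivial⟩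
      | X s => exact ⟨.X [], trivial⟩
      | W s n hn => exact ⟨.d0, trivial⟩
    obtain ⟨y, hy⟩ := this
    exact ⟨y, hy, y, (F0 I).refl y, force_top _ V y⟩

/-- being a `W` point -/
def isW : P0 → Prop
  | .W _ _ _ => True
  | _ => False

/-- being an `X` point -/
def isX : P0 → Prop
  | .X _ => True
  | _ => False

theorem f_dbb (x : P0) : Force (F0 I) V x (.dia i (.box i .bot)) ↔ x = .d1 ∨ isW x := by
  rw [force_dia]
  constructor
  · intro h
    obtain ⟨y, hy, y', hy', h1⟩ := h x ((F0 I).refl x)
    rw [f_bb] at h1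
    subst h1
    have hy'2 : le0 .d0 y := hy'
    have hy2 : R0 x y := hy
    cases y <;> simp [le0] at hy'2
    cases x <;> simp_all [R0, isW]
  · intro h x' hx'
    have hx2 : le0 x' x := hx'
    refine ⟨.d0, ?_, .d0, trivial, (f_bb i V .d0).2 rfl⟩
    show R0 x' .d0
    cases x' <;> cases x <;> simp_all [R0, isW, le0]

theorem f_xi (x : P0) : Force (F0 I) V x (Fm.xi i) ↔ isX x := by
  show (∀ x', le0 x' x → ¬ Force (F0 I) V x' (.dia i (.box i .bot))) ∧
    Force (F0 I) V x (.dia i .top) ↔ _
  rw [f_dt]
  constructor
  · rintro ⟨h1, h2⟩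
    have h3 := h1 x (le0_refl x)
    rw [f_dbb] at h3
    cases x <;> simp_all [isW, isX]
  · intro h
    cases x with
    | X s =>
      refine ⟨fun x' hx' h2 => ?_, by simp⟩
      rw [f_dbb] at h2
      cases x' <;> simp_all [le0, isW]
    | _ => simp [isX] at h

theorem f_om (x : P0) : Force (F0 I) V x (Fm.om i) ↔ isW x := by
  show Force (F0 I) V x (.dia i (.box i .bot)) ∧ Force (F0 I) V x (.dia i (.dia i .top)) ↔ _
  rw [f_dbb, force_dia]
  constructor
  · rintro ⟨h1 | h1, h2⟩
    · subst h1
      exfalso
      obtain ⟨y, hy, y', hy', h3⟩ := h2 .d1 trivial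
      have hy2 : R0 .d1 y := hy
      have hy'2 : le0 y' y := hy'
      rw [f_dt] at h3
      cases y <;> simp [R0] at hy2
      cases y' <;> simp_all [le0]
    · exact h1
  · intro h
    refine ⟨Or.inr h, fun x' hx' => ?_⟩
    have hx2 : le0 x' x := hx'
    cases x with
    | W s n hn =>
      cases x' with
      | W s' n' hn' =>
        refine ⟨.X (s'.take n'), ?_, .X (s'.take n'), (F0 I).refl _, (f_dt i V _).2 (by simp)⟩
        show s'.take n' <+: s'.take n'
        exact List.prefix_rfl
      | _ => simp [le0] at hx2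
    | _ => simp [isW] at h

theorem f_del (x : P0) : Force (F0 I) V x (Fm.del i) ↔ x = .d1 := by
  show Force (F0 I) V x (.dia i .top) ∧ (∀ y, R0 x y → Force (F0 I) V y (.box i .bot)) ↔ _
  rw [f_dt]
  simp only [f_bb]
  constructor
  · rintro ⟨h1, h2⟩
    cases x with
    | d0 => exact absurd rfl h1
    | d1 => rfl
    | X s => exact absurd (h2 (.X []) trivial) (by simp)
    | W s n hn => exact absurd (h2 (.X (s.take n)) List.prefix_rfl) (by simp)
  · rintro rfl
    refine ⟨by simp, fun y hy => ?_⟩
    cases y <;> simp_all [R0]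

theorem f_ddel (s : List Bool) (n : ℕ) (hn : n < s.length) :
    Force (F0 I) V (.W s n hn) (.dia i (Fm.del i)) ↔ s[n]? = some true := by
  rw [force_dia]
  constructor
  · intro h
    obtain ⟨y, hy, y', hy', h1⟩ := h _ ((F0 I).refl _)
    rw [f_del] at h1
    subst h1
    have hy2 : R0 (.W s n hn) y := hy
    have hy'2 : le0 .d1 y := hy'
    cases y <;> simp [le0] at hy'2
    exact hy2
  · intro h x' hx'
    have hx2 : le0 x' (.W s n hn) := hx'
    cases x' with
    | W s' n' hn' =>
      obtain ⟨h1, rfl⟩ := hx2
      refine ⟨.d1, ?_, .d1, trivial, (f_del i V _).2 rfl⟩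
      show s'[n']? = some true
      rw [pre_get h1 hn]; exact h
    | _ => simp [le0] at hx2

variable (hV : ∀ n, IsRO le0 (V n))

include hV

theorem f_bxp (s : List Bool) (n : ℕ) (hn : n < s.length) :
    Force (F0 I) V (.W s n hn) (Fm.bxp i) ↔ V 0 (.X (s.take n)) := by
  show (∀ y, R0 (.W s n hn) y → Force (F0 I) V y (Fm.imp (Fm.xi i) (.var 0))) ↔ _
  simp only [force_imp (F0 I) V hV, f_xi]
  constructor
  · intro h
    exact h (.X (s.take n)) List.prefix_rfl _ ((F0 I).refl _) trivial
  · intro h y hy x' hx' hX
    have hx2 : le0 x' y := hx'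
    cases x' with
    | X u' =>
      cases y with
      | X u =>
        show V 0 (.X u')
        refine IsRO.down le0_trans (hV 0) h ?_
        show s.take n <+: u'
        exact List.IsPrefix.trans hy hx2
      | _ => simp [le0] at hx2
    | _ => simp [isX] at hX

theorem f_th (s : List Bool) (n : ℕ) (hn : n < s.length) :
    Force (F0 I) V (.W s n hn) (Fm.th i) ↔
      s[n]? = some true ∧ V 0 (.X (s.take n)) ∧ ∀ m < n, ¬ V 0 (.X (s.take m)) := by
  show (Force (F0 I) V _ (Fm.om i) ∧ Force (F0 I) V _ (.dia i (Fm.del i))) ∧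
    (Force (F0 I) V _ (Fm.bxp i) ∧ Force (F0 I) V _ (.neg (.dia i (.and (Fm.om i) (Fm.bxp i))))) ↔ _
  rw [f_om, f_ddel, f_bxp i V hV]
  have e : Force (F0 I) V (.W s n hn) (.neg (.dia i (.and (Fm.om i) (Fm.bxp i)))) ↔
      ∀ m < n, ¬ V 0 (.X (s.take m)) := by
    constructor
    · intro h m hm hVm
      refine h _ ((F0 I).refl _) ?_
      rw [force_dia]
      intro x' hx'
      have hx2 : le0 x' (.W s n hn) := hx'
      cases x' with
      | W s' n' hn' =>
        obtain ⟨h1, rfl⟩ := hx2
        refine ⟨.W s' m (hm.trans hn'), ⟨hm, List.prefix_rfl⟩, .W s' m (hm.trans hn'), (F0 I).refl _, ?_⟩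
        refine ⟨(f_om i V _).2 trivial, (f_bxp i V hV _ _ _).2 ?_⟩
        rw [pre_take h1 (by omega)]; exact hVm
      | _ => simp [le0] at hx2
    · intro h x' hx' hd
      rw [force_dia] at hd
      obtain ⟨y, hy, y', hy', h1, h2⟩ := hd x' ((F0 I).refl _)
      have h1' : isW y' := (f_om i V _).1 h1
      have hx2 : le0 x' (.W s n hn) := hx'
      have hy2 : R0 x' y := hy
      have hy'2 : le0 y' y := hy'
      cases y' with
      | W s1' m' hm' =>
        cases y with
        | W s1 m hm =>
          cases x' with
          | W s' n' hn' =>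
            obtain ⟨h3, rfl⟩ := hx2
            obtain ⟨h4, rfl⟩ := hy'2
            obtain ⟨h5, h6⟩ := hy2
            rw [f_bxp i V hV] at h2
            refine h m' h5 ?_
            rw [← pre_take (h3.trans (h6.trans h4)) (by omega)]
            exact h2
          | _ => simp [le0] at hx2
        | _ => simp [le0] at hy'2
      | _ => simp [isW] at h1'
  rw [e]
  simp [isW]

theorem f_split (x : P0) : Force (F0 I) V x (Fm.split i) := by
  show Force (F0 I) V x (Fm.imp _ _)
  rw [force_imp (F0 I) V hV]
  rintro x' hx' ⟨h1, h2⟩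
  rw [f_xi] at h1
  cases x' with
  | X s =>
    have h2' : V 0 (.X s) := h2
    -- the least `n` with `V 0 (X (s.take n))`
    have hex : ∃ n, V 0 (.X (s.take n)) := ⟨s.length, by rw [List.take_length]; exact h2'⟩
    classical
    let n := Nat.find hex
    have hn : V 0 (.X (s.take n)) := Nat.find_spec hex
    have hmin : ∀ m < n, ¬ V 0 (.X (s.take m)) := fun m hm => Nat.find_min hex hm
    have hns : n ≤ s.length := Nat.find_min' hex (by rw [List.take_length]; exact h2')
    let v := s.take n
    have hvl : v.length = n := by simp [v, hns]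
    have hcommon : ∀ (b : Bool) (s' : List Bool), v ++ [b] <+: s' →
        s'[n]? = some b ∧ s'.take n = v ∧ (∀ m < n, s'.take m = s.take m) ∧ n < s'.length := by
      intro b s' hp
      obtain ⟨t, rfl⟩ := hp
      refine ⟨?_, ?_, ?_, ?_⟩
      · rw [List.append_assoc, List.getElem?_append_right (by omega)]
        simp [hvl]
      · rw [List.append_assoc, List.take_append_of_le_length (by omega)]
        rw [← hvl]; simp
      · intro m hm
        rw [List.append_assoc, List.take_append_of_le_length (by omega)]
        show (s.take n).take m = _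
        rw [List.take_take, min_eq_left (by omega)]
      · simp [hvl]
    have hU : ∀ b, V 0 (.X (v ++ [b])) := by
      intro b
      refine IsRO.down le0_trans (hV 0) hn ?_
      show s.take n <+: v ++ [b]
      exact ⟨[b], rfl⟩
    refine ⟨?_, ?_⟩
    · show Force (F0 I) V _ (Fm.dia _ _)
      rw [force_dia]
      intro x'' hx''
      refine ⟨.X (v ++ [true]), ?_, .X (v ++ [true]), (F0 I).refl _, ⟨(f_xi i V _).2 trivial, hU _⟩, ?_⟩
      · have hx2 : le0 x'' (.X s) := hx''
        cases x'' with
        | X u => exact trivial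
        | _ => simp [le0] at hx2
      · show Force (F0 I) V _ (Fm.dia _ _)
        rw [force_dia]
        intro y hy
        have hy2 : le0 y (.X (v ++ [true])) := hy
        cases y with
        | X u =>
          obtain ⟨e1, e2, e3, e4⟩ := hcommon true u hy2
          refine ⟨.W u n e4, List.prefix_rfl, .W u n e4, (F0 I).refl _, ?_⟩
          rw [f_th i V hV]
          refine ⟨e1, ?_, fun m hm => ?_⟩
          · rw [e2]; exact hn
          · rw [e3 m hm]; exact hmin m hm
        | _ => simp [le0] at hy2
    · show Force (F0 I) V _ (Fm.dia _ _)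
      rw [force_dia]
      intro x'' hx''
      refine ⟨.X (v ++ [false]), ?_, .X (v ++ [false]), (F0 I).refl _, ⟨(f_xi i V _).2 trivial, hU _⟩, ?_⟩
      · have hx2 : le0 x'' (.X s) := hx''
        cases x'' with
        | X u => exact trivial
        | _ => simp [le0] at hx2
      · intro y hy ht
        have ht' : Force (F0 I) V y (Fm.dia i (Fm.th i)) := ht
        rw [force_dia] at ht'
        obtain ⟨z, hz, z', hz', h5⟩ := ht' y ((F0 I).refl _)
        have h6 : isW z' := (f_om i V _).1 h5.1.1
        have hy2 : le0 y (.X (v ++ [false])) := hy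
        have hz2 : R0 y z := hz
        have hz'2 : le0 z' z := hz'
        cases y with
        | X u =>
          cases z' with
          | W s1' m' hm' =>
            cases z with
            | W s1 m hm =>
              obtain ⟨h7, rfl⟩ := hz'2
              rw [f_th i V hV] at h5
              obtain ⟨h8, h9, h10⟩ := h5
              have hp : v ++ [false] <+: s1' := List.IsPrefix.trans hy2 (List.IsPrefix.trans hz2 h7)
              obtain ⟨e1, e2, e3, e4⟩ := hcommon false s1' hp
              rcases lt_trichotomy m' n with h | h | h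
              · rw [e3 m' h] at h9
                exact hmin m' h h9
              · rw [h, e1] at h8
                simp at h8
              · refine h10 n h ?_
                rw [e2]; exact hn
            | _ => simp [le0] at hz'2
          | _ => simp [isW] at h6
        | _ => simp [le0] at hy2
  | _ => simp [isX] at h1

theorem f_lam (x : P0) (hx : isW x) : Force (F0 I) V x (Fm.lam i) := by
  show Force (F0 I) V x (Fm.imp _ _)
  rw [force_imp (F0 I) V hV]
  intro x' hx' hyp
  cases x with
  | W s n hn =>
    have hx2 : le0 x' (.W s n hn) := hx'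
    cases x' with
    | W s' n' hn' =>
      have hyp' : ∀ (s1 : List Bool) (m : ℕ) (hm : m < s1.length), m < n' → s' <+: s1 →
          Force (F0 I) V (.W s1 m hm) (.box i (Fm.imp (Fm.om i) (.var 1))) → V 1 (.W s1 m hm) := by
        intro s1 m hm hmn hp hb
        have h1 := hyp (.W s1 m hm) ⟨hmn, hp⟩
        rw [force_imp (F0 I) V hV] at h1
        have h2 := h1 _ ((F0 I).refl _) ((f_om i V _).2 trivial)
        rw [force_imp (F0 I) V hV] at h2
        exact h2 _ ((F0 I).refl _) hb
      have main : ∀ m, ∀ (s1 : List Bool) (hm : m < s1.length), m < n' → s' <+: s1 →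
          V 1 (.W s1 m hm) := by
        intro m
        induction m using Nat.strong_induction_on with
        | _ m ih =>
          intro s1 hm hmn hp
          refine hyp' s1 m hm hmn hp ?_
          intro y hy
          rw [force_imp (F0 I) V hV]
          intro y' hy' hW
          rw [f_om] at hW
          have hy2 : R0 (.W s1 m hm) y := hy
          have hy'2 : le0 y' y := hy'
          cases y' with
          | W s2' k' hk' =>
            cases y with
            | W s2 k hk =>
              obtain ⟨h7, rfl⟩ := hy'2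
              obtain ⟨h8, h9⟩ := hy2
              exact ih k' h8 s2' hk' (by omega) (hp.trans (h9.trans h7))
            | _ => simp [le0] at hy'2
          | _ => simp [isW] at hW
      intro y hy
      rw [force_imp (F0 I) V hV]
      intro y' hy' hW
      rw [f_om] at hW
      have hy2 : R0 (.W s' n' hn') y := hy
      have hy'2 : le0 y' y := hy'
      cases y' with
      | W s2' k' hk' =>
        cases y with
        | W s2 k hk =>
          obtain ⟨h7, rfl⟩ := hy'2
          obtain ⟨h8, h9⟩ := hy2
          exact main k' s2' hk' h8 (h9.trans h7)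
        | _ => simp [le0] at hy'2
      | _ => simp [isW] at hW
    | _ => simp [le0] at hx2
  | _ => simp [isW] at hx

end Truth

theorem fvalid_F0 {I : Type} (i : I) : FValid (F0 I) (Fm.phi i) := by
  intro V hV x
  have hV' : ∀ n, IsRO le0 (V n) := hV
  refine ⟨f_split i V hV' x, ?_⟩
  rw [force_imp (F0 I) V hV]
  intro x' _ _ y _
  rw [force_imp (F0 I) V hV]
  intro y' _ hW
  exact f_lam i V hV' y' ((f_om i V _).1 hW)

end Pool.Agent.Q216.PFr
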