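import Pool.Agent.Q216.PFr.Basic

set_option autoImplicit false

namespace Pool.Agent.Q216.PFr

open FirstOrder FirstOrder.Language

section

variable {I W : Type} (R : I → W → W → Prop) (V : ℕ → W → Prop) (i : I)

theorem sat_bot (w : W) : ¬ Sat R V w (Fm.bot : Fm I) := fun h => h.2 h.1

theorem sat_top (w : W) : Sat R V w (Fm.top : Fm I) := sat_bot R V w

theorem sat_imp (a b : Fm I) (w : W) :
    Sat R V w (Fm.imp a b) ↔ (Sat R V w a → Sat R V w b) := by
  show ¬ (Sat R V w a ∧ ¬ Sat R V w b) ↔ _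
  tauto

theorem sat_dia (a : Fm I) (w : W) :
    Sat R V w (Fm.dia i a) ↔ ∃ v, R i w v ∧ Sat R V v a := by
  show ¬ (∀ v, R i w v → ¬ Sat R V v a) ↔ _
  push Not
  rfl

theorem sat_xi (w : W) : Sat R V w (Fm.xi i) ↔
    (∃ v, R i w v) ∧ ∀ v, R i w v → ∃ z, R i v z := by
  show (¬ Sat R V w (Fm.dia i (.box i .bot))) ∧ Sat R V w (Fm.dia i .top) ↔ _
  rw [sat_dia, sat_dia]
  constructor
  · rintro ⟨h1, v, hv, -⟩
    refine ⟨⟨v, hv⟩, fun u hu => ?_⟩
    by_contra hcon
    push Not at hcon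
    exact h1 ⟨u, hu, fun z hz => absurd hz (hcon z)⟩
  · rintro ⟨⟨v, hv⟩, h2⟩
    refine ⟨?_, v, hv, sat_top R V v⟩
    rintro ⟨u, hu, h3⟩
    obtain ⟨z, hz⟩ := h2 u hu
    exact sat_bot R V z (h3 z hz)

end

theorem kvalid_phi {I W : Type} (R : I → W → W → Prop) (i : I) :
    KValid R (Fm.phi i) ↔ ∀ w, ¬ ((∃ v, R i w v) ∧ ∀ v, R i w v → ∃ z, R i v z) := by
  constructor
  · intro h w hw
    let V : ℕ → W → Prop := fun _ v => v = w
    have hx : Sat R V w (Fm.xi i) := (sat_xi R V i w).2 hw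
    have h1 : Sat R V w (Fm.split i) := (h V w).1
    rw [Fm.split, sat_imp] at h1
    have h2 := h1 ⟨hx, rfl⟩
    obtain ⟨h3, h4⟩ := h2
    rw [show Sat R V w _ ↔ _ from sat_dia R V i _ w] at h3 h4
    obtain ⟨v, -, ⟨-, hv⟩, h5⟩ := h3
    obtain ⟨u, -, ⟨-, hu⟩, h6⟩ := h4
    have hv' : v = w := hv
    have hu' : u = w := hu
    subst hv'
    rw [hu'] at h6
    exact h6 h5
  · intro h V w
    have hx : ¬ Sat R V w (Fm.xi i) := fun h' => h w ((sat_xi R V i w).1 h')
    refine ⟨?_, ?_⟩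
    · show Sat R V w (Fm.imp _ _)
      rw [sat_imp]
      intro h'
      exact absurd h'.1 hx
    · show Sat R V w (Fm.imp _ _)
      rw [sat_imp]
      intro h'
      exact absurd h' hx

/-- the relation symbol of index `j` -/
def rsym {J : Type} (j : J) : (lang J).Relations 2 := Rel2.r j

/-- the first-order correspondent over Kripke frames -/
def kSent {I : Type} (i : I) : (lang I).Sentence :=
  ∀' ∼((∃' ((rsym i).boundedFormula₂ (&0) (&1))) ⊓
    ∀' (((rsym i).boundedFormula₂ (&0) (&1)).imp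
      (∃' ((rsym i).boundedFormula₂ (&1) (&2)))))

theorem holds_kSent {I W : Type} (R : I → W → W → Prop) (i : I) :
    Holds R (kSent i) ↔ ∀ w, ¬ ((∃ v, R i w v) ∧ ∀ v, R i w v → ∃ z, R i v z) := by
  let _ := strOf R
  have hr : ∀ x : Fin 2 → W, Structure.RelMap (L := lang I) (rsym i) x ↔
      R i (x 0) (x 1) := fun x => Iff.rfl
  show (kSent i).Realize W ↔ _
  simp only [kSent, Sentence.Realize, Formula.Realize, BoundedFormula.realize_all,
    BoundedFormula.realize_not, BoundedFormula.realize_inf, BoundedFormula.realize_ex,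
    BoundedFormula.realize_imp, BoundedFormula.realize_rel₂, hr]
  simp [Fin.snoc]

theorem kripkeFO_phi {I : Type} (i : I) : KripkeFO (Fm.phi i) :=
  ⟨kSent i, fun W _ R => (kvalid_phi R i).trans (holds_kSent R i).symm⟩

end Pool.Agent.Q216.PFr
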