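import Pool.Agent.Q216.PFr.Frame0
import Pool.Agent.Q216.PFr.Kripke

set_option autoImplicit false

namespace Pool.Agent.Q216.PFr

open FirstOrder FirstOrder.Language Filter

noncomputable section

/-- a nonprincipal ultrafilter on `ℕ` -/
abbrev uf : Ultrafilter ℕ := hyperfilter ℕ

/-- the ultrapower -/
abbrev PS : Type := (uf : Filter ℕ).Product (fun _ : ℕ => P0)

/-- the class of a sequence -/
def mk (g : ℕ → P0) : PS := (g : (uf : Filter ℕ).Product (fun _ : ℕ => P0))

theorem mk_surj (x : PS) : ∃ g, x = mk g := by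
  obtain ⟨g, hg⟩ := Quotient.exists_rep x
  exact ⟨g, hg.symm⟩

theorem mk_eq {a b : ℕ → P0} (h : ∀ᶠ n in (uf : Filter ℕ), a n = b n) : mk a = mk b :=
  Quotient.sound' h

instance str0 (I : Type) : (lang (Option I)).Structure P0 := strOf (frameRel (F0 I))

/-- the structure of the ultrapower -/
instance strU (I : Type) : (lang (Option I)).Structure PS :=
  Ultraproduct.structure (L := lang (Option I)) (M := fun _ : ℕ => P0) (u := uf)

/-- the relations of the ultrapower -/
def relU (I : Type) (j : Option I) (x y : PS) : Prop :=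
  Structure.RelMap (L := lang (Option I)) (rsym j) ![x, y]

theorem relU_mk (I : Type) (j : Option I) (a b : ℕ → P0) :
    relU I j (mk a) (mk b) ↔ ∀ᶠ n in (uf : Filter ℕ), frameRel (F0 I) j (a n) (b n) := by
  have : Nonempty P0 := ⟨.d0⟩
  have h := Ultraproduct.realize_formula_cast (L := lang (Option I)) (M := fun _ : ℕ => P0) (u := uf)
    ((rsym j).formula₂ (Term.var (0 : Fin 2)) (Term.var (1 : Fin 2))) ![a, b]
  simp only [Formula.realize_rel₂, Term.realize_var] at h
  exact h

theorem ev_choice {r : ℕ → P0 → Prop} (h : ∀ᶠ n in (uf : Filter ℕ), ∃ y, r n y) :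
    ∃ g : ℕ → P0, ∀ᶠ n in (uf : Filter ℕ), r n (g n) := h.choice

/-- the ultrapower frame -/
def FU (I : Type) : FullFrame I PS where
  le := relU I none
  refl := by
    intro x
    obtain ⟨a, rfl⟩ := mk_surj x
    rw [relU_mk]
    exact Eventually.of_forall fun n => le0_refl _
  trans := by
    intro x y z h1 h2
    obtain ⟨a, rfl⟩ := mk_surj x
    obtain ⟨b, rfl⟩ := mk_surj y
    obtain ⟨c, rfl⟩ := mk_surj z
    rw [relU_mk] at h1 h2 ⊢
    filter_upwards [h1, h2] with n h1 h2 using le0_trans _ _ _ h1 h2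
  antisymm := by
    intro x y h1 h2
    obtain ⟨a, rfl⟩ := mk_surj x
    obtain ⟨b, rfl⟩ := mk_surj y
    rw [relU_mk] at h1 h2
    refine mk_eq ?_
    filter_upwards [h1, h2] with n h1 h2 using le0_antisymm _ _ h1 h2
  R := fun i => relU I (some i)
  full := by
    intro i X hX
    refine full_of ?_ ?_ ?_ X hX
    · intro x x' z h1 h2
      obtain ⟨a, rfl⟩ := mk_surj x
      obtain ⟨a', rfl⟩ := mk_surj x'
      obtain ⟨c, rfl⟩ := mk_surj z
      rw [relU_mk] at h1 h2 ⊢
      filter_upwards [h1, h2] with n h1 h2 using C1_0 _ _ _ h1 h2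
    · intro x z z' h1 h2
      obtain ⟨a, rfl⟩ := mk_surj x
      obtain ⟨c, rfl⟩ := mk_surj z
      obtain ⟨c', rfl⟩ := mk_surj z'
      rw [relU_mk] at h1 h2
      have h3 : ∀ᶠ n in (uf : Filter ℕ), ∃ x', le0 x' (a n) ∧
          ∀ x'', le0 x'' x' → ∃ z'', le0 z'' (c' n) ∧ R0 x'' z'' := by
        filter_upwards [h1, h2] with n h1 h2 using C2_0 _ _ _ h1 h2
      obtain ⟨g, hg⟩ := ev_choice h3
      refine ⟨mk g, ?_, ?_⟩
      · rw [relU_mk]
        filter_upwards [hg] with n hn using hn.1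
      · intro x'' hx''
        obtain ⟨b, rfl⟩ := mk_surj x''
        rw [relU_mk] at hx''
        have h4 : ∀ᶠ n in (uf : Filter ℕ), ∃ z'', le0 z'' (c' n) ∧ R0 (b n) z'' := by
          filter_upwards [hg, hx''] with n hn hn2 using hn.2 _ hn2
        obtain ⟨k, hk⟩ := ev_choice h4
        refine ⟨mk k, ?_, ?_⟩
        · rw [relU_mk]
          filter_upwards [hk] with n hn using hn.1
        · rw [relU_mk]
          filter_upwards [hk] with n hn using hn.2
    · intro x
      obtain ⟨a, rfl⟩ := mk_surj x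
      rw [relU_mk]
      exact Eventually.of_forall fun n => le0_refl _

theorem le_mk (I : Type) (a b : ℕ → P0) :
    (FU I).le (mk a) (mk b) ↔ ∀ᶠ n in (uf : Filter ℕ), le0 (a n) (b n) := relU_mk I none a b

theorem R_mk (I : Type) (i : I) (a b : ℕ → P0) :
    (FU I).R i (mk a) (mk b) ↔ ∀ᶠ n in (uf : Filter ℕ), R0 (a n) (b n) := relU_mk I (some i) a b

theorem strOf_FU (I : Type) : strOf (frameRel (FU I)) = strU I := by
  refine Structure.ext ?_ ?_
  · funext n f
    exact Empty.elim f
  · funext n r x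
    cases r with
    | r j =>
      show frameRel (FU I) j (x 0) (x 1) = _
      have hx : x = ![x 0, x 1] := by
        funext k
        fin_cases k <;> rfl
      have h : frameRel (FU I) j (x 0) (x 1) = relU I j (x 0) (x 1) := by cases j <;> rfl
      rw [h, relU, ← hx]
      rfl

theorem holds_FU (I : Type) (α : (lang (Option I)).Sentence) :
    Holds (frameRel (FU I)) α ↔ Holds (frameRel (F0 I)) α := by
  have hne : Nonempty P0 := ⟨.d0⟩
  have h := Ultraproduct.sentence_realize (L := lang (Option I)) (M := fun _ : ℕ => P0) (u := uf) α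
  rw [Filter.eventually_const] at h
  unfold Holds
  rw [strOf_FU]
  exact h

/-- closed formulas -/
inductive Cl {I : Type} : Fm I → Prop
  | bot : Cl Fm.bot
  | neg {a : Fm I} : Cl a → Cl (.neg a)
  | and {a b : Fm I} : Cl a → Cl b → Cl (.and a b)
  | box {i : I} {a : Fm I} : Cl a → Cl (.box i a)

theorem transfer {I : Type} {a : Fm I} (h : Cl a) (V : ℕ → PS → Prop) (V' : ℕ → P0 → Prop) :
    ∀ g : ℕ → P0, Force (FU I) V (mk g) a ↔ ∀ᶠ n in (uf : Filter ℕ), Force (F0 I) V' (g n) a := by
  induction h with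
  | bot =>
    intro g
    refine ⟨fun h => absurd h (force_bot _ _ _), fun h => ?_⟩
    obtain ⟨n, hn⟩ := h.exists
    exact absurd hn (force_bot _ _ _)
  | @neg a _ ih =>
    intro g
    constructor
    · intro h
      by_contra hcon
      rw [← Ultrafilter.eventually_not] at hcon
      have h2 : ∀ᶠ n in (uf : Filter ℕ), ∃ y, le0 y (g n) ∧ Force (F0 I) V' y a := by
        filter_upwards [hcon] with n hn
        by_contra h3
        push Not at h3
        exact hn fun y hy => h3 y hy
      obtain ⟨b, hb⟩ := ev_choice h2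
      refine h (mk b) ?_ ?_
      · rw [le_mk]
        filter_upwards [hb] with n hn using hn.1
      · rw [ih]
        filter_upwards [hb] with n hn using hn.2
    · intro h x' hx' hf
      obtain ⟨b, rfl⟩ := mk_surj x'
      rw [le_mk] at hx'
      rw [ih] at hf
      obtain ⟨n, h1, h2, h3⟩ := (h.and (hx'.and hf)).exists
      exact h1 _ h2 h3
  | and _ _ iha ihb =>
    intro g
    show (_ ∧ _) ↔ _
    rw [iha, ihb, ← Filter.eventually_and]
    rfl
  | @box i a _ ih =>
    intro g
    constructor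
    · intro h
      by_contra hcon
      rw [← Ultrafilter.eventually_not] at hcon
      have h2 : ∀ᶠ n in (uf : Filter ℕ), ∃ y, R0 (g n) y ∧ ¬ Force (F0 I) V' y a := by
        filter_upwards [hcon] with n hn
        by_contra h3
        push Not at h3
        exact hn fun y hy => h3 y hy
      obtain ⟨b, hb⟩ := ev_choice h2
      have h3 := h (mk b) (by
        rw [R_mk]
        filter_upwards [hb] with n hn using hn.1)
      rw [ih] at h3
      obtain ⟨n, h4, h5⟩ := (h3.and hb).exists
      exact h5.2 h4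
    · intro h y hy
      obtain ⟨b, rfl⟩ := mk_surj y
      rw [R_mk] at hy
      rw [ih]
      filter_upwards [h, hy] with n h1 h2 using h1 _ h2

theorem cl_top {I : Type} : Cl (Fm.top : Fm I) := .neg .bot

theorem cl_dia {I : Type} {i : I} {a : Fm I} (h : Cl a) : Cl (Fm.dia i a) := .neg (.box (.neg h))

theorem cl_xi {I : Type} (i : I) : Cl (Fm.xi i) :=
  .and (.neg (cl_dia (.box .bot))) (cl_dia cl_top)

theorem cl_om {I : Type} (i : I) : Cl (Fm.om i) :=
  .and (cl_dia (.box .bot)) (cl_dia (cl_dia cl_top))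

/-- the points `W (0^{j+1}) (j - k)` -/
def zq (k j : ℕ) : P0 := .W (List.replicate (j + 1) false) (j - k) (by simp)

/-- the descending chain -/
def z (k : ℕ) : PS := mk (zq k)

/-- the set generated by the chain -/
def Zs (I : Type) (y : PS) : Prop := ∃ k, (FU I).le y (z k)

/-- its pseudocomplement -/
def Nq (I : Type) (y : PS) : Prop := ∀ y', (FU I).le y' y → ¬ Zs I y'

theorem Nq_ro (I : Type) : IsRO (FU I).le (Nq I) := by
  intro y
  constructor
  · intro h y' hy'
    exact ⟨y', (FU I).refl _, fun w hw => h w ((FU I).trans _ _ _ hw hy')⟩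
  · rintro h y' hy' ⟨k, hk⟩
    obtain ⟨y'', h1, h2⟩ := h y' hy'
    exact h2 y'' ((FU I).refl _) ⟨k, (FU I).trans _ _ _ h1 hk⟩

theorem C3 (I : Type) (i : I) (k : ℕ) (y : PS) (hy : (FU I).le y (z k)) :
    ∃ w, (FU I).le w (z (k + 1)) ∧ (FU I).R i y w := by
  obtain ⟨b, rfl⟩ := mk_surj y
  rw [z, le_mk] at hy
  have hk : ∀ᶠ j in (uf : Filter ℕ), k < j :=
    (Nat.hyperfilter_le_atTop) (Filter.eventually_gt_atTop k)
  have h1 : ∀ᶠ j in (uf : Filter ℕ), ∃ w, le0 w (zq (k + 1) j) ∧ R0 (b j) w := by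
    filter_upwards [hy, hk] with j hj hkj
    cases hb : b j with
    | W s n hn =>
      rw [hb] at hj
      obtain ⟨h2, h3⟩ := hj
      refine ⟨.W s (n - 1) (by omega), ⟨h2, ?_⟩, ?_, List.prefix_rfl⟩
      · rw [h3]; omega
      · omega
    | _ =>
      rw [hb] at hj
      simp [le0, zq] at hj
  obtain ⟨w, hw⟩ := ev_choice h1
  refine ⟨mk w, ?_, ?_⟩
  · rw [z, le_mk]
    filter_upwards [hw] with n hn using hn.1
  · rw [R_mk]
    filter_upwards [hw] with n hn using hn.2

theorem z_R (I : Type) (i : I) (k : ℕ) : (FU I).R i (z k) (z (k + 1)) := by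
  rw [z, z, R_mk]
  have hk : ∀ᶠ j in (uf : Filter ℕ), k < j :=
    (Nat.hyperfilter_le_atTop) (Filter.eventually_gt_atTop k)
  filter_upwards [hk] with j hj
  refine ⟨?_, List.prefix_rfl⟩
  omega

theorem not_fvalid_FU {I : Type} (i : I) : ¬ FValid (FU I) (Fm.phi i) := by
  intro hval
  let V : ℕ → PS → Prop := fun _ => Nq I
  have hV : ∀ n, IsRO (FU I).le (V n) := fun _ => Nq_ro I
  have hom : ∀ k, Force (FU I) V (z k) (Fm.om i) := by
    intro k
    rw [z, transfer (cl_om i) V (fun _ _ => True)]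
    exact Eventually.of_forall fun j => (f_om i _ _).2 trivial
  let x : PS := mk (fun _ => .X [])
  have hxi : Force (FU I) V x (Fm.xi i) := by
    rw [transfer (cl_xi i) V (fun _ _ => True)]
    exact Eventually.of_forall fun j => (f_xi i _ _).2 trivial
  have h1 := (hval V hV x).2
  rw [force_imp (FU I) V hV] at h1
  have h2 := h1 x ((FU I).refl x) hxi (z 0) (by
    rw [z, R_mk]
    exact Eventually.of_forall fun j => List.nil_prefix)
  rw [force_imp (FU I) V hV] at h2
  have h3 := h2 (z 0) ((FU I).refl _) (hom 0)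
  have h3' : Force (FU I) V (z 0) (Fm.imp _ _) := h3
  rw [force_imp (FU I) V hV] at h3'
  have h4 := h3' (z 0) ((FU I).refl _) (by
    intro y _
    rw [force_imp (FU I) V hV]
    intro y1 _ _
    rw [force_imp (FU I) V hV]
    intro y2 _ hb
    show Nq I y2
    rintro y' hy' ⟨k, hk⟩
    obtain ⟨w, hw1, hw2⟩ := C3 I i k y' hk
    have h5 := (force_down (FU I) V hV _ hb hy') w hw2
    rw [force_imp (FU I) V hV] at h5
    have h6 : Nq I w := h5 w ((FU I).refl _) (force_down (FU I) V hV _ (hom (k + 1)) hw1)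
    exact h6 w ((FU I).refl _) ⟨k + 1, hw1⟩)
  have h5 := h4 (z 1) (z_R I i 0)
  rw [force_imp (FU I) V hV] at h5
  have h6 : Nq I (z 1) := h5 (z 1) ((FU I).refl _) (hom 1)
  exact h6 (z 1) ((FU I).refl _) ⟨1, (FU I).refl _⟩

end

theorem not_possFO_phi {I : Type} (i : I) : ¬ PossFO (Fm.phi i) := by
  rintro ⟨α, hα⟩
  have : Nonempty P0 := ⟨.d0⟩
  have : Nonempty PS := ⟨mk fun _ => .d0⟩
  exact not_fvalid_FU i ((hα PS (FU I)).2 ((holds_FU I α).2 ((hα P0 (F0 I)).1 (fvalid_F0 i))))

end Pool.Agent.Q216.PFr
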